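import Pool.Agent.WAP.StmtsL
import Pool.Agent.Helper32_WAP.Add

/-!
# WAP row ZAL: addition in the kernel of reduction
-/

namespace Pool.Agent.WAP.H26

open Classical Polynomial WeierstrassCurve.Affine

section core
variable {F : Type} [NormedField F]

theorem ult_sub (hu : ∀ x y : F, ‖x + y‖ ≤ max ‖x‖ ‖y‖) (x y : F) :
    ‖x - y‖ ≤ max ‖x‖ ‖y‖ := by
  have h := hu x (-y)
  rwa [norm_neg, ← sub_eq_add_neg] at h

theorem ult_eq (hu : ∀ x y : F, ‖x + y‖ ≤ max ‖x‖ ‖y‖) {x y : F} (h : ‖x‖ < ‖y‖) :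
    ‖x + y‖ = ‖y‖ := by
  apply le_antisymm
  · exact (hu x y).trans (max_le h.le le_rfl)
  · by_contra hc
    push Not at hc
    have h1 := ult_sub hu (x + y) x
    rw [add_sub_cancel_left] at h1
    rcases le_max_iff.mp h1 with h2 | h2
    · exact absurd h2 (not_le.mpr hc)
    · exact absurd h2 (not_le.mpr h)

theorem core (hu : ∀ x y : F, ‖x + y‖ ≤ max ‖x‖ ‖y‖) {d X1 Y1 X2 Y2 X3 Y3 l m : F} {M : ℝ}
    (h21 : ‖(2 : F)‖ ≤ 1) (hM : 0 < M) (hdM : ‖d‖ * M ^ 2 < 1) (hY1 : Y1 ≠ 0) (hY2 : Y2 ≠ 0)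
    (hz1 : ‖X1 / Y1‖ ≤ M) (hz2 : ‖X2 / Y2‖ ≤ M) (hw1 : ‖1 / Y1‖ ≤ M ^ 3)
    (e1 : Y1 = l * X1 + m) (e2 : Y2 = l * X2 + m) (e3 : Y3 = -(l * X3 + m))
    (hc3 : Y3 ^ 2 = X3 ^ 3 - d ^ 2 * X3)
    (s1 : X1 + X2 + X3 = l ^ 2) (s2 : X1 * X2 + X1 * X3 + X2 * X3 = -d ^ 2 - 2 * l * m)
    (s3 : X1 * X2 * X3 = m ^ 2) (hm : m ≠ 0) (hl : ‖l‖ ≤ ‖m‖ * M ^ 2) :
    ‖d‖ < ‖X3‖ ∧ ‖X3 / Y3 - X1 / Y1 - X2 / Y2‖ ≤ ‖d‖ ^ 2 * M ^ 5 := by
  have hmp : 0 < ‖m‖ := norm_pos_iff.mpr hm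
  have hd0 : 0 ≤ ‖d‖ := norm_nonneg d
  -- α = l / m, β = 1 / m
  have hα : ‖l / m‖ ≤ M ^ 2 := by
    rw [norm_div, div_le_iff₀ hmp]
    linarith
  have hβ : ‖1 / m‖ ≤ M ^ 3 := by
    have h1 : 1 / m = (l / m) * (X1 / Y1) + 1 / Y1 := by
      rw [div_mul_div_comm, div_add_div _ _ (mul_ne_zero hm hY1) hY1, div_eq_div_iff hm (mul_ne_zero (mul_ne_zero hm hY1) hY1)]
      have h5 : Y1 = l * X1 + m := e1
      linear_combination (m * Y1) * h5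
    rw [h1]
    refine (hu _ _).trans (max_le ?_ hw1)
    rw [norm_mul]
    calc ‖l / m‖ * ‖X1 / Y1‖ ≤ M ^ 2 * M := mul_le_mul hα hz1 (norm_nonneg _) (by positivity)
      _ = M ^ 3 := by ring
  have hdα : ‖d * (l / m)‖ < 1 := by
    rw [norm_mul]
    exact lt_of_le_of_lt (mul_le_mul_of_nonneg_left hα hd0) hdM
  have h1α : ‖1 - (d * (l / m)) ^ 2‖ = 1 := by
    have h1 : ‖-(d * (l / m)) ^ 2‖ < ‖(1 : F)‖ := by
      rw [norm_neg, norm_pow, norm_one]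
      exact pow_lt_one₀ (norm_nonneg _) hdα two_ne_zero
    have h2 := ult_eq hu h1
    rw [norm_one] at h2
    rw [← h2]
    congr 1
    ring
  have hD : 1 - (d * (l / m)) ^ 2 ≠ 0 := by
    intro h
    rw [h, norm_zero] at h1α
    exact zero_ne_one h1α
  have hD2 : m ^ 2 - d ^ 2 * l ^ 2 ≠ 0 := by
    intro h
    apply hD
    have h3 : (1 - (d * (l / m)) ^ 2) = (m ^ 2 - d ^ 2 * l ^ 2) / m ^ 2 := by
      field_simp
    rw [h3, h, zero_div]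
  have hprod : Y1 * Y2 * Y3 = -(m * (m ^ 2 - d ^ 2 * l ^ 2)) := by
    rw [e1, e2, e3]
    linear_combination (-l ^ 3) * s3 + (-l ^ 2 * m) * s2 + (-l * m ^ 2) * s1
  have hY3 : Y3 ≠ 0 := by
    rintro rfl
    rw [mul_zero] at hprod
    exact (neg_ne_zero.mpr (mul_ne_zero hm hD2)) hprod.symm
  have hdiff : X3 / Y3 - X1 / Y1 - X2 / Y2 = 2 * d ^ 2 * (l / m) * (1 / m) / (1 - (d * (l / m)) ^ 2) := by
    have h3 : (1 - (d * (l / m)) ^ 2) = (m ^ 2 - d ^ 2 * l ^ 2) / m ^ 2 := by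
      field_simp
    have h4 : 2 * d ^ 2 * (l / m) * (1 / m) / (1 - (d * (l / m)) ^ 2)
        = 2 * d ^ 2 * l / (m ^ 2 - d ^ 2 * l ^ 2) := by
      rw [h3]
      field_simp
    rw [h4, div_sub_div _ _ hY3 hY1, div_sub_div _ _ (mul_ne_zero hY3 hY1) hY2,
      div_eq_div_iff (mul_ne_zero (mul_ne_zero hY3 hY1) hY2) hD2]
    have h5 : (X3 * Y1 - Y3 * X1) * Y2 - Y3 * Y1 * X2 = -2 * l * m * d ^ 2 := by
      rw [e1, e2, e3]
      linear_combination (3 * l ^ 2) * s3 + (2 * l * m) * s2 + (m ^ 2) * s1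
    have h6 : Y3 * Y1 * Y2 = -(m * (m ^ 2 - d ^ 2 * l ^ 2)) := by
      rw [← hprod]; ring
    rw [h5, h6]
    ring
  have hest : ‖X3 / Y3 - X1 / Y1 - X2 / Y2‖ ≤ ‖d‖ ^ 2 * M ^ 5 := by
    rw [hdiff, norm_div, h1α, div_one, norm_mul, norm_mul, norm_mul, norm_pow]
    calc ‖(2 : F)‖ * ‖d‖ ^ 2 * ‖l / m‖ * ‖1 / m‖ ≤ 1 * ‖d‖ ^ 2 * M ^ 2 * M ^ 3 := by
          gcongr
      _ = ‖d‖ ^ 2 * M ^ 5 := by ring
  refine ⟨?_, hest⟩
  -- |z3| ≤ M
  have hz3 : ‖X3 / Y3‖ ≤ M := by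
    have h1 : X3 / Y3 = (X3 / Y3 - X1 / Y1 - X2 / Y2) + (X1 / Y1 + X2 / Y2) := by ring
    rw [h1]
    refine (hu _ _).trans (max_le (hest.trans ?_) ((hu _ _).trans (max_le hz1 hz2)))
    have h2 : ‖d‖ ^ 2 * M ^ 5 = (‖d‖ * M ^ 2) ^ 2 * M := by ring
    rw [h2]
    have h3 : (‖d‖ * M ^ 2) ^ 2 ≤ 1 := pow_le_one₀ (by positivity) hdM.le
    calc (‖d‖ * M ^ 2) ^ 2 * M ≤ 1 * M := mul_le_mul_of_nonneg_right h3 hM.le
      _ = M := one_mul M
  have hw3 : ‖1 / Y3‖ ≤ M ^ 3 := by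
    have h1 : 1 / Y3 = -(1 / m) - (l / m) * (X3 / Y3) := by
      field_simp
      linear_combination e3
    rw [h1]
    refine (ult_sub hu _ _).trans (max_le ?_ ?_)
    · rwa [norm_neg]
    · rw [norm_mul]
      calc ‖l / m‖ * ‖X3 / Y3‖ ≤ M ^ 2 * M := mul_le_mul hα hz3 (norm_nonneg _) (by positivity)
        _ = M ^ 3 := by ring
  by_contra hcon
  push Not at hcon
  have h1 : ‖Y3‖ ^ 2 ≤ ‖d‖ ^ 3 := by
    rw [← norm_pow, hc3]
    refine (ult_sub hu _ _).trans (max_le ?_ ?_)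
    · rw [norm_pow]
      exact pow_le_pow_left₀ (norm_nonneg _) hcon 3
    · rw [norm_mul, norm_pow]
      calc ‖d‖ ^ 2 * ‖X3‖ ≤ ‖d‖ ^ 2 * ‖d‖ := mul_le_mul_of_nonneg_left hcon (by positivity)
        _ = ‖d‖ ^ 3 := by ring
  have hY3p : 0 < ‖Y3‖ := norm_pos_iff.mpr hY3
  have h2 : 1 ≤ M ^ 3 * ‖Y3‖ := by
    rw [norm_div, norm_one, div_le_iff₀ hY3p] at hw3
    exact hw3
  have h3 : 1 ≤ (M ^ 3 * ‖Y3‖) ^ 2 := one_le_pow₀ h2
  have h4 : (M ^ 3 * ‖Y3‖) ^ 2 ≤ (‖d‖ * M ^ 2) ^ 3 := by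
    calc (M ^ 3 * ‖Y3‖) ^ 2 = M ^ 6 * ‖Y3‖ ^ 2 := by ring
      _ ≤ M ^ 6 * ‖d‖ ^ 3 := mul_le_mul_of_nonneg_left h1 (by positivity)
      _ = (‖d‖ * M ^ 2) ^ 3 := by ring
  have h5 : (‖d‖ * M ^ 2) ^ 3 < 1 := pow_lt_one₀ (by positivity) hdM (by norm_num)
  linarith

end core

section main
variable {F : Type} [NormedField F] [Algebra GaussianInt F] {ϖ : GaussianInt}

theorem two_le (hF : IsLoc F ϖ) : ‖(2 : F)‖ ≤ 1 := by
  have h := hF.int 2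
  rwa [map_ofNat] at h

theorem nat_le (hF : IsLoc F ϖ) : ‖(3 : F)‖ ≤ 1 := by
  have h := hF.int 3
  rwa [map_ofNat] at h

theorem two_ne (hF : IsLoc F ϖ) : (2 : F) ≠ 0 := by
  intro h
  have hs := hF.sqrt
  have h4 : (4 : F) = 0 := by
    have : (4 : F) = 2 * 2 := by norm_num
    rw [this, h, mul_zero]
  -- if `2 = 0` then `ϖ ^ n ∣ 2` for all `n`
  have key : ∀ n : ℕ, ϖ ^ n ∣ (2 : GaussianInt) ∧
      ∀ b : GaussianInt, (2 : GaussianInt) = ϖ ^ n * b → algebraMap GaussianInt F b = 0 := by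
    have hz : ∀ b : GaussianInt, ∀ n : ℕ, (2 : GaussianInt) = ϖ ^ n * b →
        algebraMap GaussianInt F b = 0 := by
      intro b n hb
      have h1 : algebraMap GaussianInt F 2 = 0 := by rw [map_ofNat]; exact h
      rw [hb, map_mul, map_pow] at h1
      rcases mul_eq_zero.mp h1 with h2 | h2
      · exact absurd h2 (pow_ne_zero n (norm_pos_iff.mp hF.uni))
      · exact h2
    intro n
    refine ⟨?_, fun b hb => hz b n hb⟩
    induction n with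
    | zero => simp
    | succ n ih =>
      obtain ⟨b, hb⟩ := ih
      have h1 := hz b n hb
      have h2 : ϖ ∣ b := by
        rw [← hF.lt_one, h1, norm_zero]
        exact one_pos
      obtain ⟨c, hc⟩ := h2
      exact ⟨c, by rw [hb, hc]; ring⟩
  have h20 : (2 : GaussianInt) ≠ 0 := by
    intro h
    have := congrArg Zsqrtd.re h
    simp at this
  have hfin : FiniteMultiplicity ϖ (2 : GaussianInt) :=
    FiniteMultiplicity.of_not_isUnit hF.prime.not_isUnit h20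
  obtain ⟨n, hn⟩ := hfin
  exact hn (key (n + 1)).1

theorem big_iff (_hF : IsLoc F ϖ) {d : F} (hd : d ≠ 0) (P : Pt d) (hP : P ≠ 0) :
    Big 1 P ↔ ‖d‖ < ‖cX P‖ := by
  unfold Big
  rw [norm_div, lt_div_iff₀ (norm_pos_iff.mpr hd), one_mul]
  constructor
  · rintro (h | h)
    · exact absurd h hP
    · exact h
  · exact Or.inr

theorem zal (zeq : ZeqStmt) : ZalStmt := by
  intro F _ _ ϖ hF d hd P Q hP hQ
  have hu := hF.ultra
  have h2 := two_ne hF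
  have hrhs : 0 ≤ ‖d‖ ^ 2 * (max ‖zc P‖ ‖zc Q‖) ^ 5 := by positivity
  by_cases hP0 : P = 0
  · subst hP0
    rw [zero_add]
    refine ⟨hQ, ?_⟩
    rw [zc_zero, sub_zero, sub_self, norm_zero]
    positivity
  by_cases hQ0 : Q = 0
  · subst hQ0
    rw [add_zero]
    refine ⟨hP, ?_⟩
    rw [zc_zero, sub_zero, sub_self, norm_zero]
    positivity
  rw [big_iff hF hd P hP0] at hP
  rw [big_iff hF hd Q hQ0] at hQ
  obtain ⟨n1, E1⟩ := H32.ne_zero_cases hP0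
  obtain ⟨n2, E2⟩ := H32.ne_zero_cases hQ0
  obtain ⟨hY1, a1, b1, c1, hq1, r1⟩ := zeq F ϖ hF d _ _ hd n1 hP
  obtain ⟨hY2, a2, b2, c2, -, r2⟩ := zeq F ϖ hF d _ _ hd n2 hQ
  by_cases hneg : P = -Q
  · subst hneg
    rw [neg_add_cancel]
    refine ⟨Or.inl rfl, ?_⟩
    have h5 : zc (-Q) = -zc Q := by
      show cX (-Q) / cY (-Q) = -(cX Q / cY Q)
      rw [H32.cX_neg, H32.cY_neg, div_neg]
    rw [zc_zero, h5]
    have h6 : (0 : F) - -zc Q - zc Q = 0 := by ring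
    rw [h6, norm_zero]
    positivity
  set M : ℝ := max ‖zc P‖ ‖zc Q‖ with hMdef
  have hzP : zc P = cX P / cY P := rfl
  have hzQ : zc Q = cX Q / cY Q := rfl
  have hX1 : cX P ≠ 0 := by
    intro h
    rw [h, norm_zero] at hP
    exact absurd hP (not_lt.mpr (norm_nonneg d))
  have hX2 : cX Q ≠ 0 := by
    intro h
    rw [h, norm_zero] at hQ
    exact absurd hQ (not_lt.mpr (norm_nonneg d))
  have hz1p : 0 < ‖cX P / cY P‖ := norm_pos_iff.mpr (div_ne_zero hX1 hY1)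
  have hM : 0 < M := lt_of_lt_of_le hz1p (le_max_left _ _)
  have hdM : ‖d‖ * M ^ 2 < 1 := by
    rcases le_total ‖zc P‖ ‖zc Q‖ with h | h
    · rw [hMdef, max_eq_right h]
      exact lt_of_le_of_lt c2 hq1
    · rw [hMdef, max_eq_left h]
      exact lt_of_le_of_lt c1 hq1
  have hz1 : ‖cX P / cY P‖ ≤ M := le_max_left _ _
  have hz2 : ‖cX Q / cY Q‖ ≤ M := le_max_right _ _
  have hw : ∀ {X Y : F}, Y ≠ 0 → ‖Y‖ * ‖X / Y‖ ^ 3 = 1 → ‖X / Y‖ ≤ M → ‖1 / Y‖ ≤ M ^ 3 := by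
    intro X Y hY hb hz
    have h1 : ‖1 / Y‖ = ‖X / Y‖ ^ 3 := by
      rw [norm_div, norm_one, div_eq_iff (norm_ne_zero_iff.mpr hY)]
      linarith
    rw [h1]
    exact pow_le_pow_left₀ (norm_nonneg _) hz 3
  have hw1 := hw hY1 b1 hz1
  have hw2 := hw hY2 b2 hz2
  have f1 := H32.eqn (P := P)
  have f2 := H32.eqn (P := Q)
  -- the line
  have main : ∀ l m : F, cY P = l * cX P + m → cY Q = l * cX Q + m →
      P + Q ≠ 0 → cX (P + Q) = l ^ 2 - cX P - cX Q →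
      cY (P + Q) = -(l * cX (P + Q) + m) →
      cX P * cX Q + cX P * cX (P + Q) + cX Q * cX (P + Q) = -d ^ 2 - 2 * l * m →
      cX P * cX Q * cX (P + Q) = m ^ 2 → m ≠ 0 → ‖l‖ ≤ ‖m‖ * M ^ 2 →
      Big 1 (P + Q) ∧ ‖zc (P + Q) - zc P - zc Q‖ ≤ ‖d‖ ^ 2 * M ^ 5 := by
    intro l m g1 g2 g0 g3 g4 g5 g6 hm hl
    have h := core hu (two_le hF) hM hdM hY1 hY2 hz1 hz2 hw1 g1 g2 g4 H32.eqn
      (by rw [g3]; ring) g5 g6 hm hl
    exact ⟨(big_iff hF hd _ g0).mpr h.1, h.2⟩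
  by_cases hx : cX P = cX Q
  · have hPQ : P = Q := by
      rcases H32.eq_or_neg hP0 hQ0 hx with h | h
      · exact h
      · exact absurd h hneg
    subst hPQ
    obtain ⟨g0, g3, g4⟩ := H32.add_self h2 hY1
    set X := cX P with hX
    set Y := cY P with hY
    obtain ⟨l, hl⟩ : ∃ l : F, l = (3 * X ^ 2 - d ^ 2) / (2 * Y) := ⟨_, rfl⟩
    rw [← hl] at g3 g4
    have hl2 : l * (2 * Y) = 3 * X ^ 2 - d ^ 2 := by
      rw [hl]; exact div_mul_cancel₀ _ (mul_ne_zero h2 hY1)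
    have hmY : (Y - l * X) * (2 * Y) = -(X ^ 3 + d ^ 2 * X) := by
      linear_combination 2 * f1 - X * hl2
    have hXX : ‖X ^ 3 + d ^ 2 * X‖ = ‖X‖ ^ 3 := by
      have h1 : ‖d ^ 2 * X‖ < ‖X ^ 3‖ := by
        rw [norm_mul, norm_pow, norm_pow]
        have h3 : 0 < ‖X‖ := norm_pos_iff.mpr hX1
        calc ‖d‖ ^ 2 * ‖X‖ < ‖X‖ ^ 2 * ‖X‖ :=
              mul_lt_mul_of_pos_right (pow_lt_pow_left₀ hP (norm_nonneg _) two_ne_zero) h3
          _ = ‖X‖ ^ 3 := by ring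
      rw [add_comm, ult_eq hu h1, norm_pow]
    have hm : Y - l * X ≠ 0 := by
      intro h
      rw [h, zero_mul] at hmY
      have h3 : ‖X ^ 3 + d ^ 2 * X‖ = 0 := by
        rw [norm_eq_zero]
        linear_combination hmY
      rw [hXX] at h3
      exact hX1 (norm_eq_zero.mp (pow_eq_zero_iff (by norm_num) |>.mp h3))
    refine main l (Y - l * X) (by ring) (by ring) g0 (by rw [g3]; ring) (by rw [g4]; ring) ?_ ?_ hm ?_
    · rw [g3]
      linear_combination hl2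
    · rw [g3]
      linear_combination X * hl2 - f1
    · -- |l| ≤ |m| M^2
      have h3 : ‖l‖ * ‖X‖ ^ 3 ≤ ‖Y - l * X‖ * ‖X‖ ^ 2 := by
        have h4 : l * -(X ^ 3 + d ^ 2 * X) = (Y - l * X) * (3 * X ^ 2 - d ^ 2) := by
          rw [← hmY, ← hl2]; ring
        have h5 : ‖3 * X ^ 2 - d ^ 2‖ ≤ ‖X‖ ^ 2 := by
          refine (ult_sub hu _ _).trans (max_le ?_ ?_)
          · rw [norm_mul, norm_pow]
            calc ‖(3 : F)‖ * ‖X‖ ^ 2 ≤ 1 * ‖X‖ ^ 2 :=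
                  mul_le_mul_of_nonneg_right (nat_le hF) (by positivity)
              _ = ‖X‖ ^ 2 := one_mul _
          · rw [norm_pow]
            exact pow_le_pow_left₀ (norm_nonneg _) hP.le 2
        calc ‖l‖ * ‖X‖ ^ 3 = ‖l * -(X ^ 3 + d ^ 2 * X)‖ := by rw [norm_mul, norm_neg, hXX]
          _ = ‖(Y - l * X) * (3 * X ^ 2 - d ^ 2)‖ := by rw [h4]
          _ = ‖Y - l * X‖ * ‖3 * X ^ 2 - d ^ 2‖ := norm_mul _ _
          _ ≤ ‖Y - l * X‖ * ‖X‖ ^ 2 := mul_le_mul_of_nonneg_left h5 (norm_nonneg _)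
      have hXp : 0 < ‖X‖ := norm_pos_iff.mpr hX1
      have h6 : ‖l‖ * ‖X‖ ≤ ‖Y - l * X‖ := by
        have h7 : (‖l‖ * ‖X‖) * ‖X‖ ^ 2 ≤ ‖Y - l * X‖ * ‖X‖ ^ 2 := by
          calc (‖l‖ * ‖X‖) * ‖X‖ ^ 2 = ‖l‖ * ‖X‖ ^ 3 := by ring
            _ ≤ _ := h3
        exact le_of_mul_le_mul_right h7 (by positivity)
      have h8 : ‖X / Y‖ ^ 2 ≤ M ^ 2 := pow_le_pow_left₀ (norm_nonneg _) hz1 2
      calc ‖l‖ = (‖l‖ * ‖X‖) * ‖X / Y‖ ^ 2 := by rw [mul_assoc, a1, mul_one]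
        _ ≤ ‖Y - l * X‖ * M ^ 2 := mul_le_mul h6 h8 (by positivity) (norm_nonneg _)
  · obtain ⟨g0, g3, g4⟩ := H32.add_ne hP0 hQ0 hx
    have hxs : cX P - cX Q ≠ 0 := sub_ne_zero.mpr hx
    generalize hX1' : cX P = X1 at *
    generalize hX2' : cX Q = X2 at *
    generalize hY1' : cY P = Y1 at *
    generalize hY2' : cY Q = Y2 at *
    obtain ⟨l, hl⟩ : ∃ l : F, l = (Y1 - Y2) / (X1 - X2) := ⟨_, rfl⟩
    rw [← hl] at g3 g4
    have hl2 : l * (X1 - X2) = Y1 - Y2 := by rw [hl]; exact div_mul_cancel₀ _ hxs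
    have hm2 : Y2 = l * X2 + (Y1 - l * X1) := by linear_combination hl2
    -- z-coordinates
    set z1 : F := X1 / Y1 with hz1d
    set z2 : F := X2 / Y2 with hz2d
    set w1 : F := 1 / Y1 with hw1d
    set w2 : F := 1 / Y2 with hw2d
    have hdw : ∀ {z w : F}, ‖z‖ ≤ M → ‖w‖ ≤ M ^ 3 → ‖d ^ 2 * w ^ 2‖ ≤ M ^ 2 ∧
        ‖d ^ 2 * z * w‖ < 1 := by
      intro z w hz hw
      constructor
      · rw [norm_mul, norm_pow, norm_pow]
        calc ‖d‖ ^ 2 * ‖w‖ ^ 2 ≤ ‖d‖ ^ 2 * (M ^ 3) ^ 2 := by gcongr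
          _ = (‖d‖ * M ^ 2) ^ 2 * M ^ 2 := by ring
          _ ≤ 1 * M ^ 2 := by
            apply mul_le_mul_of_nonneg_right _ (by positivity)
            exact pow_le_one₀ (by positivity) hdM.le
          _ = M ^ 2 := one_mul _
      · rw [norm_mul, norm_mul, norm_pow]
        calc ‖d‖ ^ 2 * ‖z‖ * ‖w‖ ≤ ‖d‖ ^ 2 * M * M ^ 3 := by gcongr
          _ = (‖d‖ * M ^ 2) ^ 2 := by ring
          _ < 1 := pow_lt_one₀ (by positivity) hdM two_ne_zero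
    have hid : (w1 - w2) * (1 + d ^ 2 * z2 * (w1 + w2))
        = (z1 - z2) * (z1 ^ 2 + z1 * z2 + z2 ^ 2 - d ^ 2 * w1 ^ 2) := by
      linear_combination r1 - r2
    have hlz1 : l * z1 + (Y1 - l * X1) * w1 = 1 := by
      rw [hz1d, hw1d]
      field_simp
      ring
    have hlz2 : l * z2 + (Y1 - l * X1) * w2 = 1 := by
      have h5 : Y1 - l * X1 = Y2 - l * X2 := by linear_combination -hl2
      rw [h5, hz2d, hw2d]
      field_simp
      ring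
    have hun : ‖1 + d ^ 2 * z2 * (w1 + w2)‖ = 1 := by
      have h5 : ‖d ^ 2 * z2 * (w1 + w2)‖ < ‖(1 : F)‖ := by
        rw [norm_one, mul_add]
        exact lt_of_le_of_lt (hu _ _) (max_lt (hdw hz2 hw1).2 (hdw hz2 hw2).2)
      have h6 := ult_eq hu h5
      rw [norm_one, add_comm] at h6
      exact h6
    have hun0 : 1 + d ^ 2 * z2 * (w1 + w2) ≠ 0 := by
      intro h
      rw [h, norm_zero] at hun
      exact zero_ne_one hun
    have hz12 : z1 - z2 ≠ 0 := by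
      intro h
      rw [h, zero_mul] at hid
      rcases mul_eq_zero.mp hid with h5 | h5
      · apply hx
        have h6 : Y1 = Y2 := by
          have h7 : w1 = w2 := sub_eq_zero.mp h5
          rw [hw1d, hw2d, one_div, one_div] at h7
          exact inv_inj.mp h7
        have h8 : z1 = z2 := sub_eq_zero.mp h
        rw [hz1d, hz2d, h6] at h8
        exact (div_left_inj' hY2).mp h8
      · exact hun0 h5
    have hkey : -l * (1 + d ^ 2 * z2 * (w1 + w2))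
        = (Y1 - l * X1) * (z1 ^ 2 + z1 * z2 + z2 ^ 2 - d ^ 2 * w1 ^ 2) := by
      apply mul_left_cancel₀ hz12
      linear_combination (Y1 - l * X1) * hid - (1 + d ^ 2 * z2 * (w1 + w2)) * (hlz1 - hlz2)
    have hm : Y1 - l * X1 ≠ 0 := by
      intro h
      rw [h, zero_mul] at hkey
      rcases mul_eq_zero.mp hkey with h5 | h5
      · have h6 : l = 0 := by linear_combination -h5
        rw [h, zero_mul, add_zero, h6, zero_mul] at hlz1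
        exact zero_ne_one hlz1
      · exact hun0 h5
    have hle : ‖l‖ ≤ ‖Y1 - l * X1‖ * M ^ 2 := by
      have h5 : ‖l‖ = ‖Y1 - l * X1‖ * ‖z1 ^ 2 + z1 * z2 + z2 ^ 2 - d ^ 2 * w1 ^ 2‖ := by
        rw [← norm_mul, ← hkey, norm_mul, hun, mul_one, norm_neg]
      rw [h5]
      apply mul_le_mul_of_nonneg_left _ (norm_nonneg _)
      have hsq : ∀ {x y : F}, ‖x‖ ≤ M → ‖y‖ ≤ M → ‖x * y‖ ≤ M ^ 2 := by
        intro x y hx hy
        rw [norm_mul, pow_two]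
        exact mul_le_mul hx hy (norm_nonneg _) hM.le
      refine (ult_sub hu _ _).trans (max_le ((hu _ _).trans (max_le ((hu _ _).trans (max_le ?_ ?_)) ?_)) ?_)
      · rw [pow_two]; exact hsq hz1 hz1
      · exact hsq hz1 hz2
      · rw [pow_two]; exact hsq hz2 hz2
      · exact (hdw hz1 hw1).1
    have hN : l * (Y1 + Y2) = X1 ^ 2 + X1 * X2 + X2 ^ 2 - d ^ 2 := by
      apply mul_left_cancel₀ hxs
      linear_combination (Y1 + Y2) * hl2 + f1 - f2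
    refine main l (Y1 - l * X1) (by ring) hm2 g0 g3 (by rw [g4]; ring) ?_ ?_ hm hle
    · rw [g3]
      linear_combination hN - l * hl2
    · rw [g3]
      apply mul_left_cancel₀ hxs
      linear_combination X2 * f1 - X1 * f2 + X1 * (Y2 + l * X2 + (Y1 - l * X1)) * hm2

end main

end Pool.Agent.WAP.H26
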