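import Pool.Agent.WAP.StmtsM
import Pool.Agent.Helper54_WAP.ZEQ
import Pool.Agent.Helper26_WAP.ZAL
import Pool.Agent.Helper52_WAP.ZSL
import Pool.Agent.Helper88_WAP.ZLV
import Pool.Agent.Helper27_WAP.DGN
import Pool.Agent.Helper61_WAP.DIV
import Pool.Agent.Helper75_WAP.CRI
import Pool.Agent.Helper54_WAP.RAM
import Pool.Agent.Helper94_WAP.PRF
import Pool.Agent.Helper89_WAP.LMF
import Pool.Agent.Helper10_WAP.HAL
import Pool.Agent.Helper33_WAP.GNP
import Pool.Agent.Helper60_WAP.NCO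
import Pool.Agent.Helper16_WAP.DEG
import Pool.Agent.Helper46_WAP.TOB
import Pool.Agent.Helper50_WAP.TOR
import Pool.Agent.Helper62_WAP.DEP
import Pool.Agent.Helper45_WAP.PT2
import Pool.Agent.Helper69_WAP.MCY
import Pool.Agent.Helper65_WAP.KIL
import Pool.Agent.Helper66_WAP.MCK
import Pool.Agent.Helper59_WAP.UNI
import Pool.Agent.Helper39_WAP.NRM
import Pool.Agent.Helper77_WAP.LVB
import Pool.Agent.Helper97_WAP.LIN
import Pool.Agent.Helper62_WAP.CKF
import Pool.Agent.Helper6_WAP.NGL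
import Pool.Agent.Helper44_WAP.NQT
import Pool.Agent.Helper67_WAP.RCG
import Pool.Agent.Helper94_WAP.MEE
import Pool.Agent.Helper60_WAP.MEI
import Pool.Agent.Helper76_WAP.APG
import Pool.Agent.Helper50_WAP.APO
import Pool.Agent.Helper49_WAP.APT
import Pool.Agent.Helper97_WAP.GDF
import Pool.Agent.Helper32_WAP.TRX
import Pool.Agent.Helper61_WAP.DIF
import Pool.Agent.Helper61_WAP.LOC
import Pool.Agent.Helper5_WAP.KUC
import Pool.Agent.Helper24_WAP.INF
import Pool.Agent.Helper40_WAP.GExp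
import Pool.Agent.Helper33_WAP.CNT
import Pool.Agent.Helper61_WAP.MCA
import Pool.Agent.Helper51_WAP.MZZ

/-!
# WAP: part L assembled
-/

namespace Pool.Agent.WAP.H26

theorem zal0 : ZalStmt := zal H54.zeq
theorem zsl0 : ZslStmt := H52.zsl H54.zeq zal0
theorem zlv0 : ZlvStmt := H88.zlv H54.zeq zal0 zsl0
theorem dgn0 : DgnStmt := H27.dgn zal0 zsl0 zlv0
theorem div0 : DivStmt := H61D.div H54.zeq zal0 zsl0 zlv0
theorem nco0 : NcoStmt := H60.nco (H10.hal H89.lmf)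
theorem deg0 : DegStmt := H16.deg H94.prf H89.lmf nco0
theorem tob0 : TobStmt := H46.tob H33.gnp nco0 deg0
theorem tor0 : TorStmt := H50.tor tob0
theorem loc0 : LocStmt := H61.loc H61.dif
theorem kuc0 : KucStmt := H5.kuc H32.trx
theorem lvb0 : LvbStmt := H77.lvb H54.zeq
theorem lin0 : LinStmt := H97.lin H54.zeq zal0 zsl0
theorem ngl0 : NglStmt := H6.ngl H61.dif
theorem apg0 : ApgStmt := H76.apg H97.gdf (H62.ckf H40.fra) kuc0 loc0 lvb0 zlv0
theorem apt0 : AptStmt := H49.apt zlv0 dgn0 apg0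

theorem cnt0 : CntStmt := H33.cnt zlv0 H75.cri
theorem mzz0 : MzzStmt := H51.mzz H54.zeq
theorem pt20 : Pt2Stmt := H45.pt2 zlv0 cnt0 H54.ram
theorem kil0 : KilStmt := H65.kil zlv0 cnt0 H54.ram pt20
theorem mcy0 : McyStmt := H69.mcy zlv0 div0 cnt0 H54.ram tor0 H62.dep H61M.mca pt20
theorem mck0 : MckStmt := H66.mck zlv0 dgn0 cnt0 H54.ram pt20 mcy0
theorem uni0 : UniStmt := H59.uni zlv0 mck0
theorem rcg0 : RcgStmt := H67.rcg H97.gdf H40.fra kuc0 H39.nrm uni0 zlv0 lvb0 H24.inf ngl0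
theorem mee0 : MeeStmt := H94.mee H97.gdf H40.fra H39.nrm mzz0 lin0 zlv0
theorem mei0 : MeiStmt := H60.mei H97.gdf H40.fra H24.inf lvb0 zlv0 mzz0 lin0
theorem apo0 : ApoStmt := H50.apo H39.nrm mzz0 zlv0 dgn0 apg0
theorem nqt0 (k2g : K2gStmt) : NqtStmt :=
  H44.nqt H97.gdf H40.fra kuc0 H39.nrm kil0 lvb0 zlv0 k2g

end Pool.Agent.WAP.H26
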